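import Pool.Agent.J6H44.PL.TwoB

/-!
# Nearest neighbour stirring: the two point function at polylogarithmic times

For nearest neighbour random stirring on the torus `(ℤ / L)^d`, `d ≥ 3`, at all times
`t ≥ (log L)^a`, any two vertices, at any distance, are in the same cycle with probability about
`1 / 2`.

`stirExp J t F` (Pool.Agent.Y998.ST.Defs) is the expectation of `F` under random stirring with rates
`J` at time `t`, started at the identity; `nnRate d L` are the rates `1` for the nearest neighbours
of the torus `(ℤ / L)^d`.
-/

set_option autoImplicit false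

namespace Pool.Agent.Results.MP_6c3d62_pr.PolylogTwoPoint

open Finset Equiv
open Pool.Agent.Y998.ST (stirExp nnRate)

open Classical in
/-- Nearest neighbour random stirring on the torus `(ℤ / L)^d`, `d ≥ 3`, started at the identity.
There is `a`, which depends only on `d`, such that for every `η > 0` there is `L₀` such that for all
`L ≥ L₀`, all times `t ≥ (log L)^a` and all vertices `x ≠ y`, at any distance, the probability that
`x` and `y` are in the same cycle at time `t` differs from `1 / 2` by at most `η`. -/
theorem result (d : ℕ) (hd : 3 ≤ d) : ∃ a : ℕ, ∀ η : ℝ, 0 < η → ∃ L₀ : ℕ,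
    ∀ (L : ℕ) [NeZero L], L₀ ≤ L → ∀ t : ℝ, (Real.log L) ^ a ≤ t →
    ∀ x y : Fin d → ZMod L, x ≠ y →
      |stirExp (nnRate d L) t (fun g => if g.SameCycle x y then 1 else 0) - 1 / 2| ≤ η := by
  obtain ⟨a, _, h⟩ := Pool.Agent.J6H44.PL.two_all d hd
  exact ⟨a, h⟩

end Pool.Agent.Results.MP_6c3d62_pr.PolylogTwoPoint
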